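import Pool.Agent.Zk29.Gen.Crit
import Pool.Agent.H749R2.Hyp1

/-!
# Bounded distortion along the critical orbit
-/

set_option autoImplicit false
open Set Filter Topology Metric Finset

namespace Pool.Agent.Zk29.Up

open Pool.Agent.W746.LD N62a1eb23

variable {n : ℕ} {c : ℂ}

/-- The function `ρ (5 - log ρ)` is monotone. -/
lemma mono_log {ρ t : ℝ} (h0 : 0 < ρ) (h1 : ρ ≤ t) (h2 : t ≤ 1) :
    ρ * (5 - Real.log ρ) ≤ t * (5 - Real.log t) := by
  have ht : 0 < t := h0.trans_le h1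
  have h3 : Real.log (t / ρ) ≤ t / ρ - 1 := Real.log_le_sub_one_of_pos (by positivity)
  rw [Real.log_div ht.ne' h0.ne'] at h3
  have h4 : Real.log t ≤ 0 := Real.log_nonpos ht.le h2
  have h5 : ρ * (Real.log t - Real.log ρ) ≤ ρ * (t / ρ - 1) := by gcongr
  have h6 : ρ * (t / ρ - 1) = t - ρ := by field_simp
  nlinarith

lemma norm_pow_sub_pow {w z : ℂ} {M : ℝ} (hw : ‖w‖ ≤ M) (hz : ‖z‖ ≤ M) (k : ℕ) :
    ‖w ^ (k + 1) - z ^ (k + 1)‖ ≤ (k + 1) * ‖w - z‖ * M ^ k := by
  have hM : 0 ≤ M := (norm_nonneg _).trans hw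
  induction k with
  | zero => simp
  | succ k ih =>
    have h1 : w ^ (k + 1 + 1) - z ^ (k + 1 + 1) = w * (w ^ (k + 1) - z ^ (k + 1)) +
      (w - z) * z ^ (k + 1) := by ring
    rw [h1]
    calc ‖w * (w ^ (k + 1) - z ^ (k + 1)) + (w - z) * z ^ (k + 1)‖
        ≤ ‖w‖ * ‖w ^ (k + 1) - z ^ (k + 1)‖ + ‖w - z‖ * ‖z‖ ^ (k + 1) := by
          refine (norm_add_le _ _).trans ?_
          rw [norm_mul, norm_mul, norm_pow]
      _ ≤ M * ((k + 1) * ‖w - z‖ * M ^ k) + ‖w - z‖ * M ^ (k + 1) := by gcongr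
      _ = _ := by push_cast; ring

/-- **Distortion.** Points near `c` shadow the critical orbit. -/
lemma shadow (hn : 2 ≤ n) {N m : ℕ} (hN : 1 ≤ N) (hm : m ≤ N) {a : ℝ}
    (hsm : ∀ j < m, ‖P n c c j‖ * a * (8 * n * N) ≤ ‖orb n c c j‖)
    {x : ℂ} (hx : ‖x - c‖ ≤ a) :
    ‖orb n c x m - orb n c c m‖ ≤ 2 * (‖P n c c m‖ * ‖x - c‖) := by
  have hn0 : (0 : ℝ) < n := by exact_mod_cast (by omega : 0 < n)
  have hN0 : (0 : ℝ) < N := by exact_mod_cast (by omega : 0 < N)
  obtain ⟨β, hβ⟩ : ∃ β : ℝ, β = 1 / (4 * n * N) := ⟨_, rfl⟩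
  have hβ0 : 0 < β := by rw [hβ]; positivity
  have key : ∀ k : ℕ, k ≤ n * N → (1 + β) ^ k ≤ 2 := by
    intro k hk
    have h1 : (1 + β) ≤ Real.exp β := by
      have := Real.add_one_le_exp β
      linarith
    have h2 : (1 + β) ^ k ≤ (Real.exp β) ^ (n * N) :=
      (pow_le_pow_left₀ (by linarith) h1 k).trans
        (pow_le_pow_right₀ (Real.one_le_exp hβ0.le) hk)
    rw [← Real.exp_nat_mul] at h2
    have h3 : ((n * N : ℕ) : ℝ) * β = 1 / 4 := by
      rw [hβ]; push_cast; field_simp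
    rw [h3] at h2
    have h4 : Real.exp (1 / 4) ≤ 2 := by
      have h5 : Real.exp (1 / 4) ≤ Real.exp (Real.log 2) := by
        apply Real.exp_le_exp.mpr
        have := Real.log_two_gt_d9
        linarith
      rwa [Real.exp_log (by norm_num)] at h5
    linarith
  have main : ∀ j ≤ m, ‖orb n c x j - orb n c c j‖ ≤
      (1 + β) ^ ((n - 1) * j) * (‖P n c c j‖ * ‖x - c‖) := by
    intro j
    induction j with
    | zero => intro _; simp
    | succ j ih =>
      intro hj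
      have ih' := ih (by omega)
      have hk : (n - 1) * j ≤ n * N :=
        Nat.mul_le_mul (by omega) (by omega)
      have h1 := key _ hk
      set z := orb n c c j with hz
      set w := orb n c x j with hw
      have h2 : ‖w - z‖ ≤ 2 * (‖P n c c j‖ * a) := by
        refine ih'.trans ?_
        gcongr
      have h3 : ‖w - z‖ ≤ β * ‖z‖ := by
        have h4 := hsm j (by omega)
        rw [← hz] at h4
        have h5 : 2 * (‖P n c c j‖ * a) = β * (‖P n c c j‖ * a * (8 * n * N)) := by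
          rw [hβ]; field_simp; ring
        rw [h5] at h2
        refine h2.trans ?_
        gcongr
      have hwn : ‖w‖ ≤ (1 + β) * ‖z‖ := by
        have : ‖w‖ ≤ ‖w - z‖ + ‖z‖ := by
          calc ‖w‖ = ‖(w - z) + z‖ := by rw [sub_add_cancel]
            _ ≤ _ := norm_add_le _ _
        linarith
      have hzn : ‖z‖ ≤ (1 + β) * ‖z‖ := by nlinarith [norm_nonneg z]
      obtain ⟨k, rfl⟩ : ∃ k, n = k + 1 := ⟨n - 1, by omega⟩
      have h6 := norm_pow_sub_pow hwn hzn k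
      rw [orb_succ, orb_succ, add_sub_add_right_eq_sub, norm_P_succ, ← hz, ← hw,
        Nat.add_sub_cancel]
      rw [Nat.add_sub_cancel] at ih'
      refine h6.trans ?_
      calc ((k : ℝ) + 1) * ‖w - z‖ * ((1 + β) * ‖z‖) ^ k
          ≤ ((k : ℝ) + 1) * ((1 + β) ^ (k * j) * (‖P (k + 1) c c j‖ * ‖x - c‖)) *
            ((1 + β) * ‖z‖) ^ k := by gcongr
        _ = _ := by rw [mul_pow, Nat.mul_succ, pow_add]; push_cast; ring
  refine (main m le_rfl).trans ?_
  gcongr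
  exact key _ (Nat.mul_le_mul (by omega) hm)

end Pool.Agent.Zk29.Up
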