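import Pool.Agent.Zk29.Up.A1
import Pool.Agent.W746.LD.Shadow

/-!
# Near returns occur early

`Su n c N Q G η`: the closing inequality holds, with the constant `Q`, at all times up to `N` and all
scales between `η` and `1`.
-/

set_option autoImplicit false
open Set Filter Topology Metric Finset

namespace Pool.Agent.Zk29.Up

open Pool.Agent.W746.LD N62a1eb23

variable {n : ℕ} {c : ℂ}

/-- The closing inequality at the times up to `N` and the scales in `[η, 1]`. -/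
structure Su (n : ℕ) (c : ℂ) (N : ℕ) (Q G η : ℝ) : Prop where
  hN : 1 ≤ N
  hQ : 1 ≤ Q
  hη : 0 < η
  hη1 : η ≤ 1
  hG : 5 - Real.log η ≤ G
  hcl : ∀ (j : ℕ) (δ : ℝ), 1 ≤ j → j ≤ N → η ≤ δ → δ ≤ 1 →
    (∀ i, 1 ≤ i → i < j → δ ≤ ‖orb n c c i - c‖) →
    ‖P n c c j‖ * δ ≤ Q * min 1 (‖orb n c c j - c‖ * (5 - Real.log ‖orb n c c j - c‖))

variable {N : ℕ} {Q G η : ℝ}

lemma Su.G5 (s : Su n c N Q G η) : 5 ≤ G := by
  have := Real.log_nonpos s.hη.le s.hη1
  linarith [s.hG]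

/-- The loss at each step. -/
noncomputable def XX (N : ℕ) (Q G : ℝ) : ℝ := 100 * N * Q * G

lemma Su.X_ge (s : Su n c N Q G η) : 500 ≤ XX N Q G := by
  have h1 : (1 : ℝ) ≤ N := by exact_mod_cast s.hN
  have h2 := s.hQ
  have h3 := s.G5
  unfold XX
  have h4 : (1 : ℝ) ≤ N * Q := by nlinarith
  nlinarith

lemma Su.X1 (s : Su n c N Q G η) : 16 * N * Q * (G + 2 * XX N Q G) ≤ XX N Q G ^ 2 := by
  have hX := s.X_ge
  have h1 : (1 : ℝ) ≤ N := by exact_mod_cast s.hN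
  have h2 := s.hQ
  have h3 := s.G5
  have h5 : 5 * (N * Q) ≤ N * Q * G := by
    have : (0 : ℝ) ≤ N * Q := by nlinarith
    nlinarith
  have h6 : XX N Q G = 100 * (N * Q * G) := by unfold XX; ring
  have h7 : 16 * N * Q * (G + 2 * XX N Q G) = 16 * (N * Q * G) + 32 * (N * Q) * XX N Q G := by ring
  rw [h7]
  have h8 : N * Q ≤ XX N Q G / 500 := by rw [h6]; linarith
  have h9 : N * Q * G = XX N Q G / 100 := by rw [h6]; ring
  rw [h9]
  have h10 : 32 * (N * Q) * XX N Q G ≤ 32 * (XX N Q G / 500) * XX N Q G := by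
    have : 0 ≤ XX N Q G := by linarith
    gcongr
  nlinarith

/-- The size of the derivative against the distance of the critical orbit to the critical point. -/
lemma Su.ratio (s : Su n c N Q G η) (hn : 2 ≤ n) {J j : ℕ} {δ : ℝ} (hJN : J ≤ N) (hj : j + 1 ≤ J)
    (hηδ : η ≤ δ) (hδ1 : δ ≤ 1) (hap : ∀ i, 1 ≤ i → i < J → δ ≤ ‖orb n c c i - c‖)
    (hR : 0 < ‖orb n c c (j + 1) - c‖) :
    ‖P n c c j‖ * n * δ ≤ Q * ‖orb n c c j‖ * (5 - Real.log ‖orb n c c (j + 1) - c‖) := by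
  have h1 := s.hcl (j + 1) δ (by omega) (by omega) hηδ hδ1 (fun i h1 h2 => hap i h1 (by omega))
  have hQ : 0 < Q := by linarith [s.hQ]
  have h2 : ‖P n c c (j + 1)‖ * δ ≤ Q * (‖orb n c c (j + 1) - c‖ *
      (5 - Real.log ‖orb n c c (j + 1) - c‖)) := by
    refine h1.trans ?_
    gcongr
    exact min_le_right _ _
  have h3 := norm_orb_succ_sub (n := n) (c := c) c j
  have hz : 0 < ‖orb n c c j‖ := by
    rw [norm_pos_iff]
    intro h0
    rw [h3, h0, norm_zero, zero_pow (by omega)] at hR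
    exact lt_irrefl _ hR
  set L := 5 - Real.log ‖orb n c c (j + 1) - c‖ with hL
  rw [norm_P_succ] at h2
  rw [h3] at h2
  have h4 : ‖orb n c c j‖ ^ n = ‖orb n c c j‖ ^ (n - 1) * ‖orb n c c j‖ := by
    rw [← pow_succ]
    congr 1
    omega
  rw [h4] at h2
  have h5 : 0 < ‖orb n c c j‖ ^ (n - 1) := by positivity
  have h6 : (‖P n c c j‖ * n * δ) * ‖orb n c c j‖ ^ (n - 1) ≤
      (Q * ‖orb n c c j‖ * L) * ‖orb n c c j‖ ^ (n - 1) := by
    calc _ = ‖P n c c j‖ * (n * ‖orb n c c j‖ ^ (n - 1)) * δ := by ring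
      _ ≤ _ := h2
      _ = _ := by ring
  exact le_of_mul_le_mul_right h6 h5

/-- **A deep first return gives an attracting cycle.** -/
theorem Su.att (s : Su n c N Q G η) (hn : 2 ≤ n) {J : ℕ} {δ : ℝ} (hJ1 : 1 ≤ J) (hJN : J ≤ N)
    (hηδ : η ≤ δ) (hδ1 : δ ≤ 1) (hap : ∀ i, 1 ≤ i → i < J → δ ≤ ‖orb n c c i - c‖)
    (hR0 : 0 < ‖orb n c c J - c‖) (hR : ‖orb n c c J - c‖ * XX N Q G ^ 2 ≤ δ) :
    ∃ z, IsAttractingCycle (fun z => z ^ n + c) J z := by
  obtain ⟨ρ, hρ⟩ : ∃ ρ, ρ = ‖orb n c c J - c‖ := ⟨_, rfl⟩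
  rw [← hρ] at hR0 hR
  have hX := s.X_ge
  have hX1 := s.X1
  set X := XX N Q G with hXdef
  have hQ : 0 < Q := by linarith [s.hQ]
  have hG := s.G5
  have hN0 : (1 : ℝ) ≤ N := by exact_mod_cast s.hN
  have hn0 : (0 : ℝ) < n := by exact_mod_cast (by omega : 0 < n)
  have hδ0 : 0 < δ := s.hη.trans_le hηδ
  have hX2 : 0 < X ^ 2 := by positivity
  -- the function `ρ (5 - log ρ)`
  have hlog : ρ * (5 - Real.log ρ) * X ^ 2 ≤ δ * (G + 2 * X) := by
    have h1 : ρ ≤ δ / X ^ 2 := by rw [le_div_iff₀ hX2]; exact hR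
    have h2 : δ / X ^ 2 ≤ 1 := by
      rw [div_le_one hX2]
      nlinarith
    have h3 := mono_log hR0 h1 h2
    have h4 : 5 - Real.log (δ / X ^ 2) ≤ G + 2 * X := by
      rw [Real.log_div hδ0.ne' hX2.ne', Real.log_pow]
      have h5 : Real.log η ≤ Real.log δ := Real.log_le_log s.hη hηδ
      have h6 : Real.log X ≤ X := by
        have := Real.log_le_sub_one_of_pos (show 0 < X by linarith)
        linarith
      have h7 := s.hG
      push_cast
      linarith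
    have h5 : ρ * (5 - Real.log ρ) ≤ δ / X ^ 2 * (G + 2 * X) := by
      refine h3.trans ?_
      gcongr
    calc ρ * (5 - Real.log ρ) * X ^ 2 ≤ δ / X ^ 2 * (G + 2 * X) * X ^ 2 := by gcongr
      _ = _ := by field_simp
  have hX1' : 1 ≤ X ^ 2 := by nlinarith
  have hρδ : ρ ≤ δ := (le_mul_of_one_le_right hR0.le hX1').trans hR
  have hL : 0 ≤ 5 - Real.log ρ := by
    have := Real.log_nonpos hR0.le (hρδ.trans hδ1)
    linarith
  have hL2 : 0 ≤ ρ * (5 - Real.log ρ) * X ^ 2 := by positivity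
  have hRj : ∀ j, j < J → ρ ≤ ‖orb n c c (j + 1) - c‖ := by
    intro j hj
    rcases Nat.lt_or_ge (j + 1) J with h | h
    · exact hρδ.trans (hap _ (by omega) h)
    · have : j + 1 = J := by omega
      rw [this, hρ]
  have hratio : ∀ j < J, ‖P n c c j‖ * (2 * ρ) * (8 * n * N) ≤ ‖orb n c c j‖ := by
    intro j hj
    have h1 := s.ratio hn hJN (j := j) (by omega) hηδ hδ1 hap (hR0.trans_le (hRj j hj))
    have h2 : Real.log ρ ≤ Real.log ‖orb n c c (j + 1) - c‖ := Real.log_le_log hR0 (hRj j hj)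
    have h3 : ‖P n c c j‖ * n * δ ≤ Q * ‖orb n c c j‖ * (5 - Real.log ρ) := by
      refine h1.trans ?_
      gcongr
    have h4 : (‖P n c c j‖ * (2 * ρ) * (8 * n * N)) * (δ * X ^ 2) ≤ ‖orb n c c j‖ * (δ * X ^ 2) := by
      calc (‖P n c c j‖ * (2 * ρ) * (8 * n * N)) * (δ * X ^ 2)
          = 16 * N * ρ * X ^ 2 * (‖P n c c j‖ * n * δ) := by ring
        _ ≤ 16 * N * ρ * X ^ 2 * (Q * ‖orb n c c j‖ * (5 - Real.log ρ)) := by gcongr
        _ = 16 * N * Q * ‖orb n c c j‖ * (ρ * (5 - Real.log ρ) * X ^ 2) := by ring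
        _ ≤ 16 * N * Q * ‖orb n c c j‖ * (δ * (G + 2 * X)) := by gcongr
        _ = ‖orb n c c j‖ * δ * (16 * N * Q * (G + 2 * X)) := by ring
        _ ≤ ‖orb n c c j‖ * δ * X ^ 2 := by gcongr
        _ = _ := by ring
    exact le_of_mul_le_mul_right h4 (by positivity)
  have hDJ : ‖P n c c J‖ ≤ 1 / 16 := by
    have h1 := s.hcl J δ hJ1 hJN hηδ hδ1 hap
    have h2 : ‖P n c c J‖ * δ ≤ Q * (ρ * (5 - Real.log ρ)) := by
      refine h1.trans ?_
      rw [← hρ]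
      gcongr
      exact min_le_right _ _
    have h3 : ‖P n c c J‖ * (δ * X ^ 2 * 16) ≤ 1 / 16 * (δ * X ^ 2 * 16) := by
      calc ‖P n c c J‖ * (δ * X ^ 2 * 16) = 16 * X ^ 2 * (‖P n c c J‖ * δ) := by ring
        _ ≤ 16 * X ^ 2 * (Q * (ρ * (5 - Real.log ρ))) := by gcongr
        _ = 16 * 1 * Q * (ρ * (5 - Real.log ρ) * X ^ 2) := by ring
        _ ≤ 16 * N * Q * (δ * (G + 2 * X)) := by gcongr
        _ = δ * (16 * N * Q * (G + 2 * X)) := by ring
        _ ≤ δ * X ^ 2 := by gcongr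
        _ = _ := by ring
    exact le_of_mul_le_mul_right h3 (by positivity)
  have hsh : ∀ x, ‖x - c‖ ≤ 2 * ρ → ‖orb n c x J - orb n c c J‖ ≤ ρ / 4 := by
    intro x hx
    have h1 := shadow hn s.hN hJN hratio hx
    calc _ ≤ 2 * (‖P n c c J‖ * ‖x - c‖) := h1
      _ ≤ 2 * (1 / 16 * (2 * ρ)) := by gcongr
      _ = ρ / 4 := by ring
  have hd : Differentiable ℂ (fun z => orb n c z J) := differentiable_orb J
  obtain ⟨y, -, hy, hy1⟩ := Pool.Agent.H749R2.Hyp.fixed_of_contr (g := fun z => orb n c z J) (c := c)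
    (ρ := 5 / 4 * ρ) (q := 1 / 3) (by positivity) (by norm_num) (by norm_num) hd
    (by
      intro x hx
      rw [mem_closedBall, dist_eq_norm] at hx ⊢
      have h1 := hsh x (by linarith)
      calc ‖orb n c x J - c‖ = ‖(orb n c x J - orb n c c J) + (orb n c c J - c)‖ := by
            rw [sub_add_sub_cancel]
        _ ≤ ‖orb n c x J - orb n c c J‖ + ‖orb n c c J - c‖ := norm_add_le _ _
        _ ≤ ρ / 4 + ρ := by rw [hρ] at h1 ⊢; linarith
        _ = _ := by ring)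
    (by
      intro x hx
      rw [mem_closedBall, dist_eq_norm] at hx
      have h1 : deriv (fun z => orb n c z J) x = deriv (fun z => orb n c z J - orb n c c J) x := by
        rw [deriv_sub_const]
      rw [h1]
      have h2 := Complex.norm_deriv_le_of_forall_mem_sphere_norm_le (c := x) (R := 3 / 4 * ρ)
        (C := ρ / 4) (f := fun z => orb n c z J - orb n c c J) (by positivity)
        ((hd.sub_const _).diffContOnCl) (by
          intro z hz
          rw [mem_sphere, dist_eq_norm] at hz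
          apply hsh
          calc ‖z - c‖ = ‖(z - x) + (x - c)‖ := by rw [sub_add_sub_cancel]
            _ ≤ ‖z - x‖ + ‖x - c‖ := norm_add_le _ _
            _ ≤ _ := by linarith)
      refine h2.trans (le_of_eq ?_)
      field_simp)
  exact ⟨y, by omega, hy, hd y, hy1⟩

/-- **Two near returns give a near return at a time which is at most their difference.** -/
theorem Su.gap (s : Su n c N Q G η) (hn : 2 ≤ n) {p q : ℕ} {a : ℝ} (hq : 1 ≤ q) (hqp : q < p)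
    (hpN : p ≤ N) (ha : 0 < a) (h1 : ‖orb n c c q - c‖ ≤ a) (h2 : ‖orb n c c p - c‖ ≤ a)
    (ha1 : η ≤ a * XX N Q G ^ 2) (ha2 : a * XX N Q G ^ 2 ≤ 1) :
    ∃ j, 1 ≤ j ∧ j ≤ p - q ∧ ‖orb n c c j - c‖ ≤ a * XX N Q G ^ 2 := by
  by_contra hcon
  push Not at hcon
  have hX := s.X_ge
  have hX1 := s.X1
  set X := XX N Q G with hXdef
  have hQ : 0 < Q := by linarith [s.hQ]
  have hG := s.G5
  have hN0 : (1 : ℝ) ≤ N := by exact_mod_cast s.hN
  have hn0 : (0 : ℝ) < n := by exact_mod_cast (by omega : 0 < n)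
  have hX2 : 0 < X ^ 2 := by positivity
  obtain ⟨m, hm⟩ : ∃ m, m = p - q := ⟨_, rfl⟩
  rw [← hm] at hcon
  obtain ⟨δ, hδ⟩ : ∃ δ, δ = a * X ^ 2 := ⟨_, rfl⟩
  rw [← hδ] at ha1 ha2 hcon
  have hδ0 : 0 < δ := by rw [hδ]; positivity
  have hm1 : 1 ≤ m := by omega
  have hmN : m ≤ N := by omega
  have hlog : ∀ j, 1 ≤ j → j ≤ m → 5 - Real.log ‖orb n c c j - c‖ ≤ G := by
    intro j h3 h4
    have h5 := Real.log_le_log s.hη (ha1.trans (hcon j h3 h4).le)
    linarith [s.hG]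
  have hap : ∀ i, 1 ≤ i → i < m → δ ≤ ‖orb n c c i - c‖ := fun i h3 h4 => (hcon i h3 h4.le).le
  have hNQG : 16 * N * Q * G ≤ X ^ 2 := by
    refine le_trans ?_ hX1
    gcongr
    linarith
  have hratio : ∀ j < m, ‖P n c c j‖ * a * (8 * n * N) ≤ ‖orb n c c j‖ := by
    intro j hj
    have h3 := s.ratio hn hmN (j := j) (by omega) ha1 ha2 hap
      (hδ0.trans (hcon (j + 1) (by omega) (by omega)))
    have h4 := hlog (j + 1) (by omega) (by omega)
    have h5 : (‖P n c c j‖ * a * (8 * n * N)) * X ^ 2 ≤ ‖orb n c c j‖ * X ^ 2 := by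
      calc (‖P n c c j‖ * a * (8 * n * N)) * X ^ 2 = 8 * N * (‖P n c c j‖ * n * δ) := by
            rw [hδ]; ring
        _ ≤ 8 * N * (Q * ‖orb n c c j‖ * (5 - Real.log ‖orb n c c (j + 1) - c‖)) := by gcongr
        _ ≤ 8 * N * (Q * ‖orb n c c j‖ * G) := by gcongr
        _ = ‖orb n c c j‖ * (8 * N * Q * G) := by ring
        _ ≤ ‖orb n c c j‖ * (16 * N * Q * G) := by
            have : 8 * N * Q * G ≤ 16 * N * Q * G := by
              have : 0 ≤ N * Q * G := by positivity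
              nlinarith
            gcongr
        _ ≤ _ := by gcongr
    exact le_of_mul_le_mul_right h5 hX2
  have h3 := shadow hn s.hN hmN hratio h1
  rw [← orb_add, show q + m = p by omega] at h3
  have h4 : 2 * (‖P n c c m‖ * ‖orb n c c q - c‖) ≤ ‖orb n c c m - c‖ / 4 := by
    have h5 := s.hcl m δ hm1 hmN ha1 ha2 hap
    have h6 : ‖P n c c m‖ * δ ≤ Q * (‖orb n c c m - c‖ * G) := by
      refine h5.trans ?_
      gcongr
      refine (min_le_right _ _).trans ?_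
      gcongr
      exact hlog m hm1 le_rfl
    have h7 : (2 * (‖P n c c m‖ * ‖orb n c c q - c‖)) * X ^ 2 ≤ ‖orb n c c m - c‖ / 4 * X ^ 2 := by
      calc (2 * (‖P n c c m‖ * ‖orb n c c q - c‖)) * X ^ 2 ≤ (2 * (‖P n c c m‖ * a)) * X ^ 2 := by
            gcongr
        _ = 2 * (‖P n c c m‖ * δ) := by rw [hδ]; ring
        _ ≤ 2 * (Q * (‖orb n c c m - c‖ * G)) := by gcongr
        _ = ‖orb n c c m - c‖ / 4 * (8 * 1 * Q * G) := by ring
        _ ≤ ‖orb n c c m - c‖ / 4 * (16 * N * Q * G) := by gcongr; norm_num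
        _ ≤ _ := by gcongr
    exact le_of_mul_le_mul_right h7 hX2
  have h5 : ‖orb n c c m - c‖ ≤ ‖orb n c c p - orb n c c m‖ + ‖orb n c c p - c‖ := by
    calc ‖orb n c c m - c‖ = ‖(orb n c c p - c) - (orb n c c p - orb n c c m)‖ := by
          congr 1; ring
      _ ≤ ‖orb n c c p - c‖ + ‖orb n c c p - orb n c c m‖ := norm_sub_le _ _
      _ = _ := add_comm _ _
  have h6 := hcon m hm1 le_rfl
  have h7 : 4 * a ≤ δ := by
    have h8 : (4 : ℝ) ≤ X ^ 2 := by nlinarith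
    rw [hδ]
    calc 4 * a = a * 4 := mul_comm _ _
      _ ≤ a * X ^ 2 := by gcongr
  linarith

/-- **Halving.** -/
theorem Su.halve (s : Su n c N Q G η) (hn : 2 ≤ n)
    (hno : ∀ m z, 1 ≤ m → m ≤ N → ¬ IsAttractingCycle (fun z => z ^ n + c) m z)
    (hne : ∀ m, 1 ≤ m → m ≤ N → orb n c c m ≠ c) {N' p : ℕ} {a : ℝ}
    (hN' : N' ≤ N) (hp1 : 1 ≤ p) (hpN : p ≤ N') (ha : 0 < a) (hηa : η ≤ a)
    (ha1 : a * XX N Q G ^ 4 ≤ 1) (hp : ‖orb n c c p - c‖ ≤ a) :
    ∃ q, 1 ≤ q ∧ 2 * q ≤ N' ∧ ‖orb n c c q - c‖ ≤ a * XX N Q G ^ 4 := by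
  classical
  have hX := s.X_ge
  set X := XX N Q G with hXdef
  have hX2 : 1 ≤ X ^ 2 := by nlinarith
  have hX4 : X ^ 4 = X ^ 2 * X ^ 2 := by ring
  have hex : ∃ p, 1 ≤ p ∧ ‖orb n c c p - c‖ ≤ a := ⟨p, hp1, hp⟩
  obtain ⟨k, hk⟩ : ∃ k, k = Nat.find hex := ⟨_, rfl⟩
  have hk1 : 1 ≤ k := by rw [hk]; exact (Nat.find_spec hex).1
  have hka : ‖orb n c c k - c‖ ≤ a := by rw [hk]; exact (Nat.find_spec hex).2
  have hkp : k ≤ p := by rw [hk]; exact Nat.find_le ⟨hp1, hp⟩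
  have hkN : k ≤ N := by omega
  have haX : a ≤ a * X ^ 2 := le_mul_of_one_le_right ha.le hX2
  have haX4 : a * X ^ 2 ≤ a * X ^ 4 := by
    rw [hX4, ← mul_assoc]
    exact le_mul_of_one_le_right (by positivity) hX2
  have hq : ∃ q, 1 ≤ q ∧ q < k ∧ ‖orb n c c q - c‖ ≤ a * X ^ 2 := by
    by_contra hcon
    push Not at hcon
    have h0 : 0 < ‖orb n c c k - c‖ := by
      rw [norm_pos_iff, sub_ne_zero]
      exact hne k hk1 hkN
    obtain ⟨z, hz⟩ := s.att hn hk1 hkN (hηa.trans haX) (haX4.trans ha1)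
      (fun i h1 h2 => (hcon i h1 h2).le) h0 (by
        rw [← hXdef]
        exact mul_le_mul_of_nonneg_right hka (by positivity))
    exact hno k z hk1 hkN hz
  obtain ⟨q, hq1, hqk, hqa⟩ := hq
  obtain ⟨j, hj1, hjk, hja⟩ := s.gap hn hq1 hqk hkN (by positivity) hqa (hka.trans haX)
    (by
      rw [← hXdef, mul_assoc, ← hX4]
      exact hηa.trans (haX.trans haX4))
    (by rw [← hXdef, mul_assoc, ← hX4]; exact ha1)
  rw [← hXdef, mul_assoc, ← hX4] at hja
  rcases Nat.le_total q j with h | h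
  · exact ⟨q, hq1, by omega, hqa.trans haX4⟩
  · exact ⟨j, hj1, by omega, hja⟩

/-- **No near returns below a quasi-polynomial scale.** -/
theorem Su.no_return (s : Su n c N Q G η) (hn : 2 ≤ n)
    (hno : ∀ m z, 1 ≤ m → m ≤ N → ¬ IsAttractingCycle (fun z => z ^ n + c) m z)
    (hne : ∀ m, 1 ≤ m → m ≤ N → orb n c c m ≠ c) {k p : ℕ} {a : ℝ} (hk : N < 2 ^ k)
    (hp1 : 1 ≤ p) (hpN : p ≤ N) (ha : 0 < a) (hηa : η ≤ a)
    (hp : ‖orb n c c p - c‖ ≤ a) : 1 < a * (XX N Q G ^ 4) ^ k := by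
  by_contra hcon
  push Not at hcon
  have hX := s.X_ge
  set X := XX N Q G with hXdef
  have hX4 : 1 ≤ X ^ 4 := one_le_pow₀ (by linarith)
  have main : ∀ i ≤ k, ∃ q, 1 ≤ q ∧ 2 ^ i * q ≤ N ∧ ‖orb n c c q - c‖ ≤ a * (X ^ 4) ^ i := by
    intro i
    induction i with
    | zero => intro _; exact ⟨p, hp1, by simpa using hpN, by simpa using hp⟩
    | succ i ih =>
      intro hi
      obtain ⟨q, hq1, hqN, hqa⟩ := ih (by omega)
      have h2i : 0 < 2 ^ i := by positivity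
      have hqN' : q ≤ N / 2 ^ i := by
        rw [Nat.le_div_iff_mul_le h2i, mul_comm]; exact hqN
      have hai : a ≤ a * (X ^ 4) ^ i := le_mul_of_one_le_right ha.le (one_le_pow₀ hX4)
      obtain ⟨q', h1, h2, h3⟩ := s.halve hn hno hne (N' := N / 2 ^ i) (Nat.div_le_self _ _) hq1 hqN'
        (a := a * (X ^ 4) ^ i) (by positivity) (hηa.trans hai) (by
          rw [← hXdef, mul_assoc, ← pow_succ]
          refine le_trans ?_ hcon
          gcongr) hqa
      refine ⟨q', h1, ?_, ?_⟩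
      · rw [Nat.le_div_iff_mul_le h2i] at h2
        calc 2 ^ (i + 1) * q' = 2 * q' * 2 ^ i := by ring
          _ ≤ N := h2
      · rw [← hXdef, mul_assoc, ← pow_succ] at h3
        exact h3
  obtain ⟨q, h1, h2, -⟩ := main k le_rfl
  have h3 : 2 ^ k * 1 ≤ 2 ^ k * q := Nat.mul_le_mul_left _ h1
  omega

/-- **The derivative.** -/
theorem Su.deriv_lt (s : Su n c N Q G η) (hn : 2 ≤ n)
    (hno : ∀ m z, 1 ≤ m → m ≤ N → ¬ IsAttractingCycle (fun z => z ^ n + c) m z)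
    (hne : ∀ m, 1 ≤ m → m ≤ N → orb n c c m ≠ c) {k : ℕ} (hk : N < 2 ^ k)
    (hηD : η * ‖P n c c N‖ ≤ 4 * Q) :
    ‖P n c c N‖ ≤ 4 * Q * (XX N Q G ^ 4) ^ k := by
  by_contra hcon
  push Not at hcon
  have hX := s.X_ge
  set X := XX N Q G with hXdef
  have hQ : 0 < Q := by linarith [s.hQ]
  have hX4 : 1 ≤ X ^ 4 := one_le_pow₀ (by linarith)
  have hXk : 1 ≤ (X ^ 4) ^ k := one_le_pow₀ hX4
  have hD0 : 0 < ‖P n c c N‖ := lt_of_le_of_lt (by positivity) hcon
  obtain ⟨a, ha⟩ : ∃ a, a = 4 * Q / ‖P n c c N‖ := ⟨_, rfl⟩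
  have ha0 : 0 < a := by rw [ha]; positivity
  have hηa : η ≤ a := by rw [ha, le_div_iff₀ hD0]; exact hηD
  have ha1 : a * (X ^ 4) ^ k ≤ 1 := by
    rw [ha, div_mul_eq_mul_div, div_le_one hD0]
    exact hcon.le
  have ha1' : a ≤ 1 := le_trans (le_mul_of_one_le_right ha0.le hXk) ha1
  have hex : ∃ p, 1 ≤ p ∧ p < N ∧ ‖orb n c c p - c‖ ≤ a := by
    by_contra hc
    push Not at hc
    have h1 := s.hcl N a s.hN le_rfl hηa ha1' (fun i h1 h2 => (hc i h1 h2).le)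
    have h2 : ‖P n c c N‖ * a = 4 * Q := by rw [ha]; field_simp
    rw [h2] at h1
    have h3 : Q * min 1 (‖orb n c c N - c‖ * (5 - Real.log ‖orb n c c N - c‖)) ≤ Q * 1 := by
      gcongr
      exact min_le_left _ _
    linarith
  obtain ⟨p, hp1, hpN, hp⟩ := hex
  have := s.no_return hn hno hne hk hp1 hpN.le ha0 hηa hp
  rw [← hXdef] at this
  linarith

end Pool.Agent.Zk29.Up
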