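import Pool.Agent.Zk29.Up.A2

/-!
# The closing inequality at all scales above the scale of an escaping point
-/

set_option autoImplicit false
open Set Filter Topology Metric Finset

namespace Pool.Agent.Zk29.Up

open Pool.Agent.W746.LD N62a1eb23

variable {n : ℕ} {c : ℂ}

/-- The logarithm of the sum of the inverse derivatives. -/
lemma W_le (hn : 2 ≤ n) {N j : ℕ} {δ : ℝ} (hj1 : 1 ≤ j) (hjN : j ≤ N) (hδ0 : 0 < δ) (hδ1 : δ ≤ 1)
    (hap : ∀ i, 1 ≤ i → i < j → δ ≤ ‖orb n c c i - c‖) :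
    1 ≤ 1 + Real.log (∑ i ∈ range j, ‖P n c c i‖⁻¹) ∧
      1 + Real.log (∑ i ∈ range j, ‖P n c c i‖⁻¹) ≤ N * (1 - Real.log δ) := by
  have hn1 : (1 : ℝ) ≤ n := by exact_mod_cast (by omega : 1 ≤ n)
  have hN1 : (1 : ℝ) ≤ N := by exact_mod_cast (by omega : 1 ≤ N)
  have h1 : ∀ i, i < j → δ ^ i ≤ ‖P n c c i‖ := by
    intro i
    induction i with
    | zero => intro _; simp
    | succ i ih =>
      intro hi
      have h2 := ih (by omega)
      have h3 := hap (i + 1) (by omega) hi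
      rw [norm_orb_succ_sub] at h3
      have h4 : δ ≤ ‖orb n c c i‖ ^ (n - 1) := by
        rcases le_total 1 ‖orb n c c i‖ with h | h
        · exact hδ1.trans (one_le_pow₀ h)
        · exact h3.trans (pow_le_pow_of_le_one (norm_nonneg _) h (by omega))
      rw [norm_P_succ, pow_succ]
      have h5 : δ ≤ n * ‖orb n c c i‖ ^ (n - 1) := by
        calc δ = 1 * δ := (one_mul _).symm
          _ ≤ _ := by gcongr
      gcongr
  have h2 : ∀ i ∈ range j, ‖P n c c i‖⁻¹ ≤ (δ ^ N)⁻¹ := by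
    intro i hi
    rw [Finset.mem_range] at hi
    have h3 : δ ^ N ≤ δ ^ i := pow_le_pow_of_le_one hδ0.le hδ1 (by omega)
    exact inv_anti₀ (by positivity) (h3.trans (h1 i hi))
  have h3 : ∑ i ∈ range j, ‖P n c c i‖⁻¹ ≤ N * (δ ^ N)⁻¹ := by
    refine (Finset.sum_le_sum h2).trans ?_
    rw [Finset.sum_const, Finset.card_range, nsmul_eq_mul]
    gcongr
  have h4 : 1 ≤ ∑ i ∈ range j, ‖P n c c i‖⁻¹ := by
    calc (1 : ℝ) = ‖P n c c 0‖⁻¹ := by rw [P_zero, norm_one, inv_one]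
      _ ≤ _ := Finset.single_le_sum (f := fun j => ‖P n c c j‖⁻¹)
        (fun j _ => by positivity) (Finset.mem_range.mpr (by omega))
  refine ⟨by linarith [Real.log_nonneg h4], ?_⟩
  have h5 := Real.log_le_log (by linarith) h3
  rw [Real.log_mul (by positivity) (by positivity), Real.log_inv, Real.log_pow] at h5
  have h6 := Real.log_le_sub_one_of_pos (show (0 : ℝ) < N by linarith)
  nlinarith

/-- **The closing inequality at all scales above `A (N E) ^ A ε`**, if a point at distance at most `ε`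
from `c` escapes by the time `M`. -/
theorem mkSu (hn : 2 ≤ n) : ∃ A : ℝ, 1 ≤ A ∧ ∀ c ∈ multibrotSet n, ∀ N M : ℕ, 1 ≤ N → 1 ≤ M →
    ∀ y : ℂ, 3 ≤ ‖orb n c y M‖ → ∀ r : ℝ, 0 < r → r ≤ 1 →
    (∀ c', Pool.Agent.H548R3.MB.Centre n (N + 2) c' → r ≤ ‖c' - c‖) →
    ∀ ε : ℝ, 0 < ε → ε ≤ 1 → ‖y - c‖ ≤ ε → A * (N * (1 - Real.log ε)) ^ A * ε ≤ 1 →
    Su n c N (A * (N * (1 - Real.log ε)) ^ A * M ^ 2 / r) (5 + (1 - Real.log ε))
      (A * (N * (1 - Real.log ε)) ^ A * ε) := by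
  obtain ⟨A, hA, hcl⟩ := closing hn
  refine ⟨A, hA, ?_⟩
  intro c hc N M hN hM y hy r hr0 hr1 hfar ε hε0 hε1 hyε hη1
  have hN1 : (1 : ℝ) ≤ N := by exact_mod_cast hN
  have hM1 : (1 : ℝ) ≤ M := by exact_mod_cast hM
  obtain ⟨E, hE⟩ : ∃ E, E = 1 - Real.log ε := ⟨_, rfl⟩
  have hlε : Real.log ε ≤ 0 := Real.log_nonpos hε0.le hε1
  have hE1 : 1 ≤ E := by linarith
  rw [← hE] at hη1 ⊢
  have hNE : 1 ≤ N * E := by nlinarith
  have hNEA : 1 ≤ (N * E : ℝ) ^ A := Real.one_le_rpow hNE (by linarith)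
  have hANE : 1 ≤ A * (N * E : ℝ) ^ A := by nlinarith
  have hεη : ε ≤ A * (N * E) ^ A * ε := le_mul_of_one_le_left hε0.le hANE
  refine ⟨hN, ?_, by positivity, hη1, ?_, ?_⟩
  · rw [le_div_iff₀ hr0, one_mul]
    have : 1 ≤ (M : ℝ) ^ 2 := one_le_pow₀ hM1
    nlinarith
  · have h1 := Real.log_le_log hε0 hεη
    linarith
  · intro j δ hj1 hjN hηδ hδ1 hap
    have hεδ : ε ≤ δ := hεη.trans hηδ
    have hδ0 : 0 < δ := hε0.trans_le hεδ
    obtain ⟨hW1, hW2⟩ := W_le hn hj1 hjN hδ0 hδ1 hap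
    obtain ⟨W, hW⟩ : ∃ W, W = 1 + Real.log (∑ i ∈ range j, ‖P n c c i‖⁻¹) := ⟨_, rfl⟩
    rw [← hW] at hW1 hW2
    have hW3 : W ≤ N * E := by
      refine hW2.trans ?_
      have := Real.log_le_log hε0 hεδ
      gcongr
      linarith
    have hWA : W ^ A ≤ (N * E : ℝ) ^ A := Real.rpow_le_rpow (by linarith) hW3 (by linarith)
    have hWA0 : 0 ≤ W ^ A := Real.rpow_nonneg (by linarith) _
    obtain ⟨c', h1, h2⟩ := hcl c hc j M hj1 hM y hy δ hδ0 hδ1 hap W hW (by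
      refine le_trans ?_ hηδ
      gcongr)
    have h3 : r ≤ ‖c' - c‖ := by
      apply hfar
      obtain ⟨p, hp1, hp2, hp3⟩ := h1
      exact ⟨p, hp1, by omega, hp3⟩
    have hmin : 0 ≤ min 1 (‖orb n c c j - c‖ * (5 - Real.log ‖orb n c c j - c‖)) := by
      refine le_min zero_le_one (mul_nonneg (norm_nonneg _) ?_)
      have h4 : ‖orb n c c j - c‖ ≤ 4 := by
        have h5 := mem_multibrot_orb hn hc j
        have h6 : ‖c‖ ≤ 2 := mem_multibrot_orb hn hc 0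
        calc _ ≤ ‖orb n c c j‖ + ‖c‖ := norm_sub_le _ _
          _ ≤ _ := by linarith
      rcases eq_or_lt_of_le (norm_nonneg (orb n c c j - c)) with h0 | h0
      · rw [← h0, Real.log_zero]; norm_num
      · have h5 := Real.log_le_sub_one_of_pos h0
        linarith
    set m := min 1 (‖orb n c c j - c‖ * (5 - Real.log ‖orb n c c j - c‖)) with hm
    have h4 : r * (‖P n c c j‖ * δ) ≤ A * (N * E) ^ A * M ^ 2 * m := by
      calc r * (‖P n c c j‖ * δ) ≤ ‖c' - c‖ * (‖P n c c j‖ * δ) := by gcongr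
        _ ≤ A * W ^ A * (M : ℝ) ^ 2 * m := h2
        _ ≤ _ := by gcongr
    rw [div_mul_eq_mul_div, le_div_iff₀ hr0]
    linarith

end Pool.Agent.Zk29.Up
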