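import Pool.Agent.Zk29.Up.A3

/-!
# Quasi-polynomial bounds
-/

set_option autoImplicit false
open Set Filter Topology Metric Finset

namespace Pool.Agent.Zk29.Up

open Pool.Agent.W746.LD N62a1eb23

variable {n : ℕ} {c : ℂ}

/-- A quasi-polynomial bound. -/
lemma numeric {A : ℝ} (hA : 1 ≤ A) : ∃ B : ℝ, 1 ≤ B ∧ ∀ N : ℕ, 2 ≤ N → ∀ T : ℝ, 2 ≤ T →
    (600 * A * T ^ (A + 1)) ^ (4 * (Nat.log 2 N + 1) + 1) < T ^ (B * Real.log N) := by
  have hl2 : 0 < Real.log 2 := Real.log_pos (by norm_num)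
  obtain ⟨α, hα⟩ : ∃ α, α = Real.log (600 * A) / Real.log 2 := ⟨_, rfl⟩
  have hα0 : 0 ≤ α := by rw [hα]; exact div_nonneg (Real.log_nonneg (by linarith)) hl2.le
  refine ⟨14 * (α + A + 1) + 1, by nlinarith, ?_⟩
  intro N hN T hT
  have hT0 : 0 < T := by linarith
  have hN2 : (2 : ℝ) ≤ N := by exact_mod_cast hN
  have hlN : Real.log 2 ≤ Real.log N := Real.log_le_log (by norm_num) hN2
  have h600 : 600 * A = (2 : ℝ) ^ α := by
    rw [hα, Real.rpow_def_of_pos (by norm_num), mul_div_cancel₀ _ hl2.ne', Real.exp_log (by linarith)]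
  have hbase : 600 * A * T ^ (A + 1) ≤ T ^ (α + A + 1) := by
    rw [h600, show α + A + 1 = α + (A + 1) by ring, Real.rpow_add hT0 α]
    exact mul_le_mul_of_nonneg_right (Real.rpow_le_rpow (by norm_num) hT hα0) (by positivity)
  have hlog : (Nat.log 2 N : ℝ) * Real.log 2 ≤ Real.log N := by
    have h1 : 2 ^ Nat.log 2 N ≤ N := Nat.pow_log_le_self 2 (by omega)
    have h2 : ((2 : ℝ)) ^ Nat.log 2 N ≤ N := by exact_mod_cast h1
    have h3 := Real.log_le_log (by positivity) h2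
    rwa [Real.log_pow] at h3
  have hl2' := Real.log_two_gt_d9
  have hk : ((4 * (Nat.log 2 N + 1) + 1 : ℕ) : ℝ) ≤ 14 * Real.log N := by
    push_cast
    have h4 : (Nat.log 2 N : ℝ) ≤ Real.log N / Real.log 2 := by
      rw [le_div_iff₀ hl2]; exact hlog
    have h5 : Real.log N / Real.log 2 ≤ 3 / 2 * Real.log N := by
      rw [div_le_iff₀ hl2]
      nlinarith
    nlinarith
  calc (600 * A * T ^ (A + 1)) ^ (4 * (Nat.log 2 N + 1) + 1)
      ≤ (T ^ (α + A + 1)) ^ (4 * (Nat.log 2 N + 1) + 1) := by gcongr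
    _ = T ^ ((α + A + 1) * ((4 * (Nat.log 2 N + 1) + 1 : ℕ) : ℝ)) := by
        rw [← Real.rpow_natCast, ← Real.rpow_mul hT0.le]
    _ ≤ T ^ ((α + A + 1) * (14 * Real.log N)) := by
        apply Real.rpow_le_rpow_of_exponent_le (by linarith)
        gcongr
    _ < T ^ ((14 * (α + A + 1) + 1) * Real.log N) := by
        apply Real.rpow_lt_rpow_of_exponent_lt (by linarith)
        nlinarith

lemma XX_le {A E r : ℝ} (hA : 1 ≤ A) {N M : ℕ} (hN : 1 ≤ N) (hM : 1 ≤ M) (hE : 1 ≤ E)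
    (hr0 : 0 < r) (hr1 : r ≤ 1) :
    XX N (A * (N * E) ^ A * M ^ 2 / r) (5 + E) ≤ 600 * A * (N * M * E / r) ^ (A + 1) := by
  have hN1 : (1 : ℝ) ≤ N := by exact_mod_cast hN
  have hM1 : (1 : ℝ) ≤ M := by exact_mod_cast hM
  unfold XX
  have h1 : (5 : ℝ) + E ≤ 6 * E := by linarith
  have h2 : (N * M * E / r : ℝ) ^ (A + 1) =
      ((N * E) ^ A * (N * E)) * (M : ℝ) ^ (A + 1) * (1 / r) ^ (A + 1) := by
    rw [show (N * M * E / r : ℝ) = (N * E) * M * (1 / r) by ring, Real.mul_rpow (by positivity)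
      (by positivity), Real.mul_rpow (by positivity) (by positivity),
      Real.rpow_add_one (by positivity)]
  have h3 : (M : ℝ) ^ 2 ≤ (M : ℝ) ^ (A + 1) := by
    rw [← Real.rpow_natCast]
    apply Real.rpow_le_rpow_of_exponent_le hM1
    push_cast
    linarith
  have h4 : 1 / r ≤ (1 / r) ^ (A + 1) := by
    have h5 : 1 ≤ 1 / r := by rw [le_div_iff₀ hr0]; linarith
    calc 1 / r = (1 / r) ^ (1 : ℝ) := (Real.rpow_one _).symm
      _ ≤ _ := Real.rpow_le_rpow_of_exponent_le h5 (by linarith)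
  rw [h2]
  calc 100 * N * (A * (N * E) ^ A * M ^ 2 / r) * (5 + E)
      ≤ 100 * N * (A * (N * E) ^ A * M ^ 2 / r) * (6 * E) := by gcongr
    _ = 600 * A * (((N * E) ^ A * (N * E)) * (M : ℝ) ^ 2 * (1 / r)) := by ring
    _ ≤ _ := by gcongr

/-- No near returns. -/
theorem ret (hn : 2 ≤ n) : ∃ B : ℝ, 1 ≤ B ∧ ∀ c ∈ multibrotSet n, ∀ N M : ℕ, 2 ≤ N → 1 ≤ M →
    ∀ y : ℂ, 3 ≤ ‖orb n c y M‖ → ∀ r : ℝ, 0 < r → r ≤ 1 →
    (∀ c', Pool.Agent.H548R3.MB.Centre n (N + 2) c' → r ≤ ‖c' - c‖) →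
    (∀ m z, 1 ≤ m → m ≤ N → ¬ IsAttractingCycle (fun z => z ^ n + c) m z) →
    (∀ m, 1 ≤ m → m ≤ N → orb n c c m ≠ c) →
    ∀ ε : ℝ, 0 < ε → ε ≤ 1 → ‖y - c‖ ≤ ε → ∀ p, 1 ≤ p → p ≤ N → ‖orb n c c p - c‖ ≤ ε →
    1 < ε * (N * M * (1 - Real.log ε) / r) ^ (B * Real.log N) := by
  obtain ⟨A, hA, hsu⟩ := mkSu hn
  obtain ⟨B, hB, hnum⟩ := numeric hA
  refine ⟨B, hB, ?_⟩
  intro c hc N M hN hM y hy r hr0 hr1 hfar hno hne ε hε0 hε1 hyε p hp1 hpN hp
  have hN2 : (2 : ℝ) ≤ N := by exact_mod_cast hN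
  have hM1 : (1 : ℝ) ≤ M := by exact_mod_cast hM
  obtain ⟨E, hE⟩ : ∃ E, E = 1 - Real.log ε := ⟨_, rfl⟩
  have hlε : Real.log ε ≤ 0 := Real.log_nonpos hε0.le hε1
  have hE1 : 1 ≤ E := by linarith
  have hsu' := hsu c hc N M (by omega) hM y hy r hr0 hr1 hfar ε hε0 hε1 hyε
  rw [← hE] at hsu' ⊢
  have hX := XX_le hA (N := N) (M := M) (by omega) hM hE1 hr0 hr1
  have hT : 2 ≤ N * M * E / r := by
    rw [le_div_iff₀ hr0]
    have h1 : (2 : ℝ) * 1 ≤ N * M := by gcongr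
    have h2 : (2 : ℝ) * 1 ≤ (N * M) * E := by
      have : (2 : ℝ) ≤ N * M := by linarith
      gcongr
    nlinarith
  have hlt := hnum N hN _ hT
  set T := N * M * E / r with hTdef
  set X := XX N (A * (N * E) ^ A * M ^ 2 / r) (5 + E) with hXdef
  have hNE : 1 ≤ N * E := by nlinarith
  have hNEA : 1 ≤ (N * E : ℝ) ^ A := Real.one_le_rpow hNE (by linarith)
  have hANE : 1 ≤ A * (N * E : ℝ) ^ A := by nlinarith
  have hηX : A * (N * E : ℝ) ^ A ≤ X := by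
    rw [hXdef]
    unfold XX
    have h1 : A * (N * E : ℝ) ^ A ≤ A * (N * E : ℝ) ^ A * M ^ 2 / r := by
      rw [le_div_iff₀ hr0]
      have : (1 : ℝ) ≤ (M : ℝ) ^ 2 := one_le_pow₀ hM1
      nlinarith
    have h2 : (1 : ℝ) ≤ 100 * N * (5 + E) := by nlinarith
    calc A * (N * E : ℝ) ^ A ≤ A * (N * E : ℝ) ^ A * M ^ 2 / r * 1 := by linarith
      _ ≤ A * (N * E : ℝ) ^ A * M ^ 2 / r * (100 * N * (5 + E)) := by gcongr
      _ = _ := by ring
  have hX1 : 1 ≤ X := hANE.trans hηX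
  have hlow : 1 < ε * X ^ (4 * (Nat.log 2 N + 1) + 1) := by
    rcases le_or_gt (A * (N * E : ℝ) ^ A * ε) 1 with h | h
    · have s := hsu' h
      have hηε : ε ≤ A * (N * E) ^ A * ε := le_mul_of_one_le_left hε0.le hANE
      have h1 := s.no_return hn hno hne (Nat.lt_pow_succ_log_self (by norm_num) N) hp1 hpN
        s.hη le_rfl (hp.trans hηε)
      rw [← hXdef] at h1
      calc 1 < A * (N * E) ^ A * ε * (X ^ 4) ^ (Nat.log 2 N).succ := h1
        _ ≤ X * ε * (X ^ 4) ^ (Nat.log 2 N).succ := by gcongr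
        _ = _ := by rw [← pow_mul, Nat.succ_eq_add_one]; ring
    · calc 1 < A * (N * E) ^ A * ε := h
        _ ≤ X * ε := by gcongr
        _ = ε * X ^ 1 := by ring
        _ ≤ _ := mul_le_mul_of_nonneg_left (pow_le_pow_right₀ hX1 (by omega)) hε0.le
  calc 1 < ε * X ^ (4 * (Nat.log 2 N + 1) + 1) := hlow
    _ ≤ ε * (600 * A * T ^ (A + 1)) ^ (4 * (Nat.log 2 N + 1) + 1) := by gcongr
    _ ≤ ε * T ^ (B * Real.log N) := by gcongr

lemma norm_P_le (hn : 2 ≤ n) (hc : c ∈ multibrotSet n) (N : ℕ) :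
    ‖P n c c N‖ ≤ (n * 2 ^ n) ^ N := by
  induction N with
  | zero => simp
  | succ N ih =>
    rw [norm_P_succ, pow_succ]
    have h1 := mem_multibrot_orb hn hc N
    have h2 : (n : ℝ) * ‖orb n c c N‖ ^ (n - 1) ≤ n * 2 ^ n := by
      have h3 : ‖orb n c c N‖ ^ (n - 1) ≤ 2 ^ (n - 1) := by gcongr
      have h4 : (2 : ℝ) ^ (n - 1) ≤ 2 ^ n := pow_le_pow_right₀ (by norm_num) (by omega)
      gcongr
      linarith
    gcongr

/-- The derivative grows at most quasi-polynomially. -/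
theorem der (hn : 2 ≤ n) : ∃ B : ℝ, 1 ≤ B ∧ ∀ c ∈ multibrotSet n, ∀ N : ℕ, 2 ≤ N →
    ∀ r : ℝ, 0 < r → r ≤ 1 →
    (∀ c', Pool.Agent.H548R3.MB.Centre n (N + 2) c' → r ≤ ‖c' - c‖) →
    (∀ m z, 1 ≤ m → m ≤ N → ¬ IsAttractingCycle (fun z => z ^ n + c) m z) →
    (∀ m, 1 ≤ m → m ≤ N → orb n c c m ≠ c) →
    ‖P n c c N‖ < (N / r) ^ (B * Real.log N) := by
  obtain ⟨A, hA, hsu⟩ := mkSu hn
  obtain ⟨B, hB, hnum⟩ := numeric hA
  have hn2 : (2 : ℝ) ≤ n := by exact_mod_cast hn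
  obtain ⟨K, hK⟩ : ∃ K : ℝ, K = 1 + Real.log (n * 2 ^ n) := ⟨_, rfl⟩
  have h2n : (1 : ℝ) ≤ n * 2 ^ n := by
    have : (1 : ℝ) ≤ 2 ^ n := one_le_pow₀ (by norm_num)
    nlinarith
  have hK1 : 1 ≤ K := by rw [hK]; linarith [Real.log_nonneg h2n]
  have hl2 : 0 < Real.log 2 := Real.log_pos (by norm_num)
  obtain ⟨κ, hκ⟩ : ∃ κ, κ = Real.log K / Real.log 2 := ⟨_, rfl⟩
  have hκ0 : 0 ≤ κ := by rw [hκ]; exact div_nonneg (Real.log_nonneg hK1) hl2.le
  have hKκ : K = (2 : ℝ) ^ κ := by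
    rw [hκ, Real.rpow_def_of_pos (by norm_num), mul_div_cancel₀ _ hl2.ne', Real.exp_log (by linarith)]
  refine ⟨(κ + 3) * B, by nlinarith, ?_⟩
  intro c hc N hN r hr0 hr1 hfar hno hne
  have hN2 : (2 : ℝ) ≤ N := by exact_mod_cast hN
  have hNr : 2 ≤ N / r := by rw [le_div_iff₀ hr0]; nlinarith
  obtain ⟨T, hT⟩ : ∃ T : ℝ, T = K * N ^ 3 / r := ⟨_, rfl⟩
  have hTle : T ≤ (N / r) ^ (κ + 3) := by
    rw [hT, Real.rpow_add (by linarith)]
    have h1 : K ≤ (N / r) ^ κ := by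
      rw [hKκ]
      exact Real.rpow_le_rpow (by norm_num) hNr hκ0
    have h2 : (N : ℝ) ^ 3 / r ≤ (N / r) ^ (3 : ℝ) := by
      rw [show (3 : ℝ) = ((3 : ℕ) : ℝ) by norm_num, Real.rpow_natCast, div_pow]
      have h3 : r ^ 3 ≤ r := pow_le_of_le_one hr0.le hr1 (by norm_num)
      gcongr
    calc K * (N : ℝ) ^ 3 / r = K * ((N : ℝ) ^ 3 / r) := by ring
      _ ≤ _ := by gcongr
  have hT2 : 2 ≤ T := by
    rw [hT, le_div_iff₀ hr0]
    have h1 : (2 : ℝ) ^ 3 ≤ (N : ℝ) ^ 3 := by gcongr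
    nlinarith
  have hlt := hnum N hN T hT2
  have hfin : T ^ (B * Real.log N) ≤ (N / r) ^ ((κ + 3) * B * Real.log N) := by
    have h1 : 0 ≤ B * Real.log N := mul_nonneg (by linarith) (Real.log_nonneg (by linarith))
    calc T ^ (B * Real.log N) ≤ ((N / r) ^ (κ + 3)) ^ (B * Real.log N) :=
          Real.rpow_le_rpow (by linarith) hTle h1
      _ = _ := by rw [← Real.rpow_mul (by positivity)]; congr 1; ring
  refine lt_of_lt_of_le ?_ hfin
  refine lt_of_le_of_lt ?_ hlt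
  have hTA : 1 ≤ T ^ (A + 1) := Real.one_le_rpow (by linarith) (by linarith)
  have hbase : 600 ≤ 600 * A * T ^ (A + 1) := by
    have : 1 ≤ A * T ^ (A + 1) := by nlinarith
    nlinarith
  have hpow : 600 * A * T ^ (A + 1) ≤ (600 * A * T ^ (A + 1)) ^ (4 * (Nat.log 2 N + 1) + 1) := by
    calc 600 * A * T ^ (A + 1) = (600 * A * T ^ (A + 1)) ^ 1 := (pow_one _).symm
      _ ≤ _ := pow_le_pow_right₀ (by linarith) (by omega)
  obtain ⟨D, hD⟩ : ∃ D, D = ‖P n c c N‖ := ⟨_, rfl⟩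
  rw [← hD]
  rcases le_or_gt D 4 with h4 | h4
  · linarith
  have hD0 : 0 < D := by linarith
  obtain ⟨ε, hε⟩ : ∃ ε, ε = 4 / D := ⟨_, rfl⟩
  have hε0 : 0 < ε := by rw [hε]; positivity
  have hε1 : ε ≤ 1 := by rw [hε, div_le_one hD0]; exact h4.le
  have hy : ∃ y : ℂ, ‖y - c‖ ≤ ε ∧ 3 ≤ ‖orb n c y N‖ := by
    by_contra hcon
    push Not at hcon
    have h1 := Complex.norm_deriv_le_of_forall_mem_sphere_norm_le (c := c) (R := ε) (C := 3)
      (f := fun z => orb n c z N) hε0 ((differentiable_orb N).diffContOnCl) (fun z hz => by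
        rw [mem_sphere, dist_eq_norm] at hz
        exact (hcon z hz.le).le)
    rw [(hasDerivAt_orb c N).deriv, ← hD, hε, le_div_iff₀ (by positivity)] at h1
    have h2 : D * (4 / D) = 4 := by field_simp
    linarith
  obtain ⟨y, hyε, hy3⟩ := hy
  obtain ⟨E, hE⟩ : ∃ E, E = 1 - Real.log ε := ⟨_, rfl⟩
  have hlε : Real.log ε ≤ 0 := Real.log_nonpos hε0.le hε1
  have hE1 : 1 ≤ E := by linarith
  have hsu' := hsu c hc N N (by omega) (by omega) y hy3 r hr0 hr1 hfar ε hε0 hε1 hyε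
  rw [← hE] at hsu'
  have hX := XX_le hA (N := N) (M := N) (by omega) (by omega) hE1 hr0 hr1
  have hEK : E ≤ K * N := by
    have h1 : D ≤ (n * 2 ^ n) ^ N := by rw [hD]; exact norm_P_le hn hc N
    have h2 := Real.log_le_log hD0 h1
    rw [Real.log_pow] at h2
    have h3 : Real.log ε = Real.log 4 - Real.log D := by
      rw [hε, Real.log_div (by norm_num) hD0.ne']
    have h5 : 0 < Real.log 4 := Real.log_pos (by norm_num)
    rw [hE, h3, hK]
    nlinarith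
  have hT0 : N * N * E / r ≤ T := by
    rw [hT]
    have h1 : (N : ℝ) * N * E ≤ K * N ^ 3 := by
      calc (N : ℝ) * N * E ≤ N * N * (K * N) := by gcongr
        _ = _ := by ring
    gcongr
  have hX' : XX N (A * (N * E) ^ A * N ^ 2 / r) (5 + E) ≤ 600 * A * T ^ (A + 1) := by
    refine hX.trans ?_
    gcongr
  set X := XX N (A * (N * E) ^ A * N ^ 2 / r) (5 + E) with hXdef
  obtain ⟨Q, hQ⟩ : ∃ Q, Q = A * (N * E : ℝ) ^ A * N ^ 2 / r := ⟨_, rfl⟩
  rw [← hQ] at hsu' hXdef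
  have hNE : 1 ≤ N * E := by nlinarith
  have hNEA : 1 ≤ (N * E : ℝ) ^ A := Real.one_le_rpow hNE (by linarith)
  have hANE : 1 ≤ A * (N * E : ℝ) ^ A := by nlinarith
  have hηQ : A * (N * E : ℝ) ^ A ≤ Q := by
    rw [hQ, le_div_iff₀ hr0]
    have : (1 : ℝ) ≤ (N : ℝ) ^ 2 := one_le_pow₀ (by linarith)
    nlinarith
  have hQX : 4 * Q ≤ X := by
    rw [hXdef]
    unfold XX
    have h2 : (4 : ℝ) ≤ 100 * N * (5 + E) := by nlinarith
    calc 4 * Q ≤ (100 * N * (5 + E)) * Q := by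
          have : 0 ≤ Q := by linarith
          gcongr
      _ = _ := by ring
  have hX1 : 1 ≤ X := by linarith
  have hDX : D ≤ X ^ (4 * (Nat.log 2 N + 1) + 1) := by
    rcases le_or_gt (A * (N * E : ℝ) ^ A * ε) 1 with h | h
    · have s := hsu' h
      have h1 := s.deriv_lt hn hno hne (Nat.lt_pow_succ_log_self (by norm_num) N) (by
        rw [← hD, hε]
        have h2 : A * (N * E : ℝ) ^ A * (4 / D) * D = 4 * (A * (N * E : ℝ) ^ A) := by field_simp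
        rw [h2]
        linarith)
      rw [← hXdef, ← hD] at h1
      calc D ≤ 4 * Q * (X ^ 4) ^ (Nat.log 2 N).succ := h1
        _ ≤ X * (X ^ 4) ^ (Nat.log 2 N).succ := by gcongr
        _ = _ := by rw [← pow_mul, Nat.succ_eq_add_one]; ring
    · have h1 : D ≤ 4 * Q := by
        rw [hε, mul_div_assoc', lt_div_iff₀ hD0] at h
        linarith
      calc D ≤ X := h1.trans hQX
        _ = X ^ 1 := (pow_one _).symm
        _ ≤ _ := pow_le_pow_right₀ hX1 (by omega)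
  refine hDX.trans ?_
  gcongr

end Pool.Agent.Zk29.Up
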